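import Pool.Agent.H69.ColE.Greedy

/-!
The bound `ln t + ln ln t + 4` for even `t ≥ 10`.
-/

set_option autoImplicit false
set_option linter.unusedSectionVars false

open Finset Filter Topology

namespace Pool.Agent.H69.ColE

/-- the third term -/
lemma third {s : ℕ} (hs : 1 ≤ s) {y l : ℝ} (hy : 0 < y) (hl : Real.exp 1 * y / 2 ≤ l) :
    (((s : ℝ) - 1) * y) ^ (s - 1) / (2 ^ s * (s.factorial : ℝ) * l ^ s) ≤ 1 / (s * y) := by
  have hs0 : (0 : ℝ) < s := by exact_mod_cast hs
  have hs1 : (1 : ℝ) ≤ s := by exact_mod_cast hs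
  have hf : (0 : ℝ) < (s.factorial : ℝ) := by exact_mod_cast s.factorial_pos
  have he : (0 : ℝ) < Real.exp 1 := Real.exp_pos 1
  have h1 : (((s : ℝ) - 1) * y) ^ (s - 1) ≤ ((s : ℝ) * y) ^ (s - 1) := by
    refine pow_le_pow_left₀ ?_ ?_ _
    · exact mul_nonneg (by linarith) hy.le
    · exact mul_le_mul_of_nonneg_right (by linarith) hy.le
  have h2 : (Real.exp 1 * y / 2) ^ s ≤ l ^ s := pow_le_pow_left₀ (by positivity) hl s
  have h3 : (s : ℝ) ^ s / (s.factorial : ℝ) ≤ Real.exp s := Real.pow_div_factorial_le_exp _ hs0.le s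
  have h4 : Real.exp (s : ℝ) = Real.exp 1 ^ s := by
    rw [← Real.exp_nat_mul, mul_one]
  rw [h4, div_le_iff₀ hf] at h3
  calc (((s : ℝ) - 1) * y) ^ (s - 1) / (2 ^ s * (s.factorial : ℝ) * l ^ s)
      ≤ ((s : ℝ) * y) ^ (s - 1) / (2 ^ s * (s.factorial : ℝ) * (Real.exp 1 * y / 2) ^ s) := by
        refine div_le_div₀ (by positivity) h1 (by positivity) ?_
        exact mul_le_mul_of_nonneg_left h2 (by positivity)
    _ ≤ 1 / (s * y) := by
        rw [div_le_div_iff₀ (by positivity) (by positivity), one_mul]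
        have e1 : ((s : ℝ) * y) ^ (s - 1) * (s * y) = (s : ℝ) ^ s * y ^ s := by
          rw [← pow_succ, Nat.sub_add_cancel hs, mul_pow]
        have e2 : (2 : ℝ) ^ s * (s.factorial : ℝ) * (Real.exp 1 * y / 2) ^ s =
            Real.exp 1 ^ s * (s.factorial : ℝ) * y ^ s := by
          rw [div_pow, mul_pow]
          field_simp
        rw [e1, e2]
        exact mul_le_mul_of_nonneg_right h3 (by positivity)

/-- the inequality between functions of `l = ln t` -/
lemma calc_bound {l : ℝ} (hl : 2.279 ≤ l) :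
    Real.exp (1 / l) * (l + Real.log l + 1.35) ≤ l + Real.log l + 4 := by
  have l0 : 0 < l := by linarith
  set u : ℝ := 1 / l with hu
  have u0 : 0 < u := by positivity
  have u1 : u ≤ 0.4388 := by
    rw [hu, div_le_iff₀ l0]
    linarith
  have hexp : Real.exp u ≤ 1 + u + u ^ 2 / 2 + 2 / 9 * u ^ 3 := by
    have h := Real.exp_bound' (x := u) u0.le (by linarith) (n := 3) (by norm_num)
    have e : ∑ m ∈ Finset.range 3, u ^ m / (m.factorial : ℝ) = 1 + u + u ^ 2 / 2 := by
      simp [Finset.sum_range_succ, Nat.factorial]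
    rw [e] at h
    norm_num [Nat.factorial] at h
    linarith
  have hlog : Real.log l ≤ 0.368 * l := by
    have h1 := Real.log_le_sub_one_of_pos (show 0 < l / Real.exp 1 by positivity)
    rw [Real.log_div l0.ne' (Real.exp_pos 1).ne', Real.log_exp] at h1
    have h2 : l / Real.exp 1 ≤ 0.368 * l := by
      rw [div_le_iff₀ (Real.exp_pos 1)]
      have := Real.exp_one_gt_d9
      nlinarith
    linarith
  have hlog0 : 0 ≤ Real.log l := Real.log_nonneg (by linarith)
  have hul : u * l = 1 := by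
    rw [hu]
    field_simp
  have h1 : Real.exp u - 1 ≤ 1.2623 * u := by
    have : u ^ 2 / 2 + 2 / 9 * u ^ 3 ≤ 0.2623 * u := by
      have e : u ^ 2 / 2 + 2 / 9 * u ^ 3 = u * (u / 2 + 2 / 9 * u ^ 2) := by ring
      rw [e]
      have : u / 2 + 2 / 9 * u ^ 2 ≤ 0.2623 := by nlinarith
      nlinarith
    linarith
  have h2 : u * (l + Real.log l + 1.35) ≤ 1.9604 := by
    have : u * Real.log l ≤ 0.368 := by
      calc u * Real.log l ≤ u * (0.368 * l) := mul_le_mul_of_nonneg_left hlog u0.le
        _ = 0.368 * (u * l) := by ring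
        _ = 0.368 := by rw [hul, mul_one]
    nlinarith
  have h3 : (Real.exp u - 1) * (l + Real.log l + 1.35) ≤ 1.2623 * 1.9604 := by
    calc (Real.exp u - 1) * (l + Real.log l + 1.35) ≤ 1.2623 * u * (l + Real.log l + 1.35) :=
          mul_le_mul_of_nonneg_right h1 (by linarith)
      _ = 1.2623 * (u * (l + Real.log l + 1.35)) := by ring
      _ ≤ _ := by linarith
  nlinarith

/-- the bound for large even uniformities -/
theorem asym {s : ℕ} (hs : 5 ≤ s) {L : ℝ}
    (hL : ∀ k : ℕ, 2 * s ≤ k → L ≤ ((k : ℝ) - 1) ^ (2 * s - 1) *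
      Pool.Agent.H688R3.TuranGen.t (2 * s) k) :
    L ≤ ((2 * s).factorial : ℝ) *
      (Real.log (2 * (s : ℝ)) + Real.log (Real.log (2 * (s : ℝ))) + 4) := by
  have s5 : (5 : ℝ) ≤ s := by exact_mod_cast hs
  set l : ℝ := Real.log (2 * (s : ℝ)) with hldef
  have hl : 2.279 ≤ l := by
    have h1 : Real.log 10 ≤ l := Real.log_le_log (by norm_num) (by linarith)
    have h2 : Real.log 10 = 3 * Real.log 2 + Real.log 1.25 := by
      rw [show (10 : ℝ) = 2 ^ 3 * 1.25 by norm_num, Real.log_mul (by norm_num) (by norm_num),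
        Real.log_pow]
      norm_num
    have h3 := Real.log_two_gt_d9
    have h4 : 0.2 ≤ Real.log 1.25 := by
      have := Real.one_sub_inv_le_log_of_pos (show (0 : ℝ) < 1.25 by norm_num)
      norm_num at this ⊢
      linarith
    linarith
  have l0 : 0 < l := by linarith
  set y : ℝ := 2 * s * l with hy
  have y1 : 22.79 ≤ y := by
    rw [hy]
    nlinarith
  have y0 : 0 < y := by linarith
  have he := Real.exp_one_gt_d9
  set n : ℕ := ⌈Real.exp 1 * y / 2⌉₊ with hn
  have hn1 : Real.exp 1 * y / 2 ≤ n := Nat.le_ceil _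
  have hn2 : (n : ℝ) < Real.exp 1 * y / 2 + 1 := Nat.ceil_lt_add_one (by positivity)
  have hn30 : (2 : ℝ) ≤ n := by nlinarith
  have hn2' : 2 ≤ n := by exact_mod_cast hn30
  have h := greedy_bound (by omega) hL (l := n) hn2' y0
  refine h.trans (mul_le_mul_of_nonneg_left ?_ (Nat.cast_nonneg _))
  have h3 := third (s := s) (by omega) y0 hn1
  have hthird : 1 / ((s : ℝ) * y) ≤ 0.0088 := by
    rw [div_le_iff₀ (by positivity)]
    nlinarith
  have hlog : Real.log n ≤ 1 + (l + Real.log l) - 0.6931 + 0.0323 := by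
    have hz : 0 < Real.exp 1 * y / 2 := by positivity
    have a1 : Real.log n ≤ Real.log (Real.exp 1 * y / 2 + 1) :=
      Real.log_le_log (by linarith) hn2.le
    have a2 : Real.log (Real.exp 1 * y / 2 + 1) = Real.log (Real.exp 1 * y / 2) +
        Real.log (1 + 2 / (Real.exp 1 * y)) := by
      rw [← Real.log_mul hz.ne' (by positivity)]
      congr 1
      field_simp
    have a3 : Real.log (1 + 2 / (Real.exp 1 * y)) ≤ 2 / (Real.exp 1 * y) := by
      have := Real.log_le_sub_one_of_pos (show 0 < 1 + 2 / (Real.exp 1 * y) by positivity)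
      linarith
    have a4 : 2 / (Real.exp 1 * y) ≤ 0.0323 := by
      rw [div_le_iff₀ (by positivity)]
      nlinarith
    have a5 : Real.log (Real.exp 1 * y / 2) = 1 + (l + Real.log l) - Real.log 2 := by
      rw [Real.log_div (by positivity) (by norm_num), Real.log_mul (by positivity) (by positivity),
        Real.log_exp, hy, Real.log_mul (by positivity) (by positivity), ← hldef]
    have a6 := Real.log_two_gt_d9
    linarith
  have hpow : (1 + 1 / y) ^ (2 * s - 1) ≤ Real.exp (1 / l) := by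
    have b1 : 1 + 1 / y ≤ Real.exp (1 / y) := by
      have := Real.add_one_le_exp (1 / y)
      linarith
    calc (1 + 1 / y) ^ (2 * s - 1) ≤ (1 + 1 / y) ^ (2 * s) := by
          refine pow_le_pow_right₀ ?_ (by omega)
          have : 0 < 1 / y := by positivity
          linarith
      _ ≤ Real.exp (1 / y) ^ (2 * s) := pow_le_pow_left₀ (by positivity) b1 _
      _ = Real.exp (1 / l) := by
          rw [← Real.exp_nat_mul]
          congr 1
          rw [hy]
          push_cast
          field_simp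
  have hlog0 : 0 ≤ Real.log l := Real.log_nonneg (by linarith)
  have hsum : 1 + Real.log n + (((s : ℝ) - 1) * y) ^ (s - 1) /
      (2 ^ s * (s.factorial : ℝ) * (n : ℝ) ^ s) ≤ l + Real.log l + 1.35 := by linarith
  calc (1 + 1 / y) ^ (2 * s - 1) * (1 + Real.log n + (((s : ℝ) - 1) * y) ^ (s - 1) /
      (2 ^ s * (s.factorial : ℝ) * (n : ℝ) ^ s))
      ≤ (1 + 1 / y) ^ (2 * s - 1) * (l + Real.log l + 1.35) :=
        mul_le_mul_of_nonneg_left hsum (by positivity)
    _ ≤ Real.exp (1 / l) * (l + Real.log l + 1.35) :=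
        mul_le_mul_of_nonneg_right hpow (by linarith)
    _ ≤ _ := calc_bound hl

end Pool.Agent.H69.ColE
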