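import Pool.Agent.H69.ColE.Cover
import Pool.Graph.R_seed8.H613T.Defs

/-!
The expected number of blocks, and the resulting systems on `n` points.
-/

set_option autoImplicit false
set_option linter.unusedSectionVars false

open Finset

namespace Pool.Agent.H69.ColE

open Pool.Agent.X44.TS (V add_self_V card_fib)
open Pool.Agent.H69.Col4 (Lab kap vec)

variable {Λ : Type} [Fintype Λ] [DecidableEq Λ] [AddCommGroup Λ] {m j n s : ℕ} [NeZero m]

open Classical in
/-- the number of maps for which the labels of given vertices are in a given set -/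
lemma card_pre {ι : Type} [Fintype ι] [DecidableEq ι] {g : ι → Fin n} (hg : Function.Injective g)
    (S : Finset (ι → Lab m Λ j)) :
    (univ.filter fun f : Fin n → Lab m Λ j => (fun i => f (g i)) ∈ S).card *
      (Fintype.card (Lab m Λ j)) ^ (Fintype.card ι) = S.card * (Fintype.card (Lab m Λ j)) ^ n := by
  classical
  let θ : (Fin n → Lab m Λ j) →+ (ι → Lab m Λ j) :=
    { toFun := fun f i => f (g i)
      map_zero' := rfl
      map_add' := fun f g => rfl }
  have hθ : Function.Surjective θ := by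
    intro h
    refine ⟨fun v => if hv : ∃ i, g i = v then h hv.choose else 0, ?_⟩
    funext i
    have hv : ∃ i', g i' = g i := ⟨i, rfl⟩
    show (if hv : ∃ i', g i' = g i then h hv.choose else 0) = h i
    rw [dif_pos hv]
    exact congrArg h (hg hv.choose_spec)
  have h := card_fib θ hθ S
  rw [Fintype.card_fun, Fintype.card_fun, Fintype.card_fin] at h
  exact h

/-- the functions whose image is a member of the base system -/
def B (t : ℕ) (Q : Finset (Finset Λ)) : Finset (Fin t → Λ) :=
  univ.filter fun l => univ.image l ∈ Q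

lemma card_B_le {t : ℕ} {Q : Finset (Finset Λ)} (hQ : ∀ e ∈ Q, e.card = t) :
    (B t Q).card ≤ t.factorial * Q.card := by
  classical
  have h1 : B t Q ⊆ Q.biUnion fun e => univ.filter fun l : Fin t → Λ => univ.image l = e := by
    intro l hl
    exact mem_biUnion.2 ⟨_, (mem_filter.1 hl).2, mem_filter.2 ⟨mem_univ _, rfl⟩⟩
  have h2 : ∀ e ∈ Q, (univ.filter fun l : Fin t → Λ => univ.image l = e).card ≤ t.factorial := by
    intro e he
    have hce : Fintype.card e = t := by rw [Fintype.card_coe, hQ e he]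
    have hmem : ∀ l : (univ.filter fun l : Fin t → Λ => univ.image l = e : Finset (Fin t → Λ)),
        ∀ i, l.1 i ∈ e := by
      intro l i
      have := (mem_filter.1 l.2).2
      have h3 : l.1 i ∈ univ.image l.1 := mem_image_of_mem _ (mem_univ _)
      rw [this] at h3
      exact h3
    have hbij : ∀ l : (univ.filter fun l : Fin t → Λ => univ.image l = e : Finset (Fin t → Λ)),
        Function.Bijective (fun i : Fin t => (⟨l.1 i, hmem l i⟩ : e)) := by
      intro l
      have hsurj : Function.Surjective (fun i : Fin t => (⟨l.1 i, hmem l i⟩ : e)) := by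
        rintro ⟨x, hx⟩
        have := (mem_filter.1 l.2).2
        rw [← this] at hx
        obtain ⟨i, -, hi⟩ := mem_image.1 hx
        exact ⟨i, Subtype.ext hi⟩
      exact (Fintype.bijective_iff_surjective_and_card _).2 ⟨hsurj, by rw [hce, Fintype.card_fin]⟩
    rw [← Fintype.card_coe]
    have e0 : Fin t ≃ e := Fintype.equivOfCardEq (by rw [hce, Fintype.card_fin])
    have hcard : Fintype.card (Fin t ≃ e) = t.factorial := by
      rw [Fintype.card_equiv e0, Fintype.card_fin]
    rw [← hcard]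
    refine Fintype.card_le_of_injective (fun l => Equiv.ofBijective _ (hbij l)) ?_
    intro l l' h
    apply Subtype.ext
    funext i
    have := congrArg (fun σ : Fin t ≃ e => ((σ i : e) : Λ)) h
    exact this
  calc (B t Q).card ≤ _ := card_le_card h1
    _ ≤ ∑ e ∈ Q, (univ.filter fun l : Fin t → Λ => univ.image l = e).card := card_biUnion_le
    _ ≤ ∑ _e ∈ Q, t.factorial := sum_le_sum h2
    _ = t.factorial * Q.card := by rw [sum_const, smul_eq_mul, mul_comm]

open Classical in
/-- labels in one component that give a member of the base system -/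
noncomputable def SP (t m j : ℕ) (Q : Finset (Finset Λ)) : Finset (Fin t → Lab m Λ j) :=
  univ.filter fun h => (∃ c, ∀ i, (h i).1 = c) ∧ univ.image (fun i => (h i).2.1) ∈ Q

lemma card_SP {t : ℕ} (ht : 0 < t) (Q : Finset (Finset Λ)) :
    (SP t m j Q).card ≤ m * ((B t Q).card * (2 ^ j) ^ t) := by
  classical
  have : (SP t m j Q).card ≤ ((univ : Finset (Fin m)) ×ˢ (B t Q ×ˢ
      (univ : Finset (Fin t → V j)))).card := by
    refine card_le_card_of_injOn (fun h => ((h ⟨0, ht⟩).1, (fun i => (h i).2.1,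
      fun i => (h i).2.2))) ?_ ?_
    · intro h hh
      have h1 := (mem_filter.1 (mem_coe.1 hh)).2
      exact mem_coe.2 (mem_product.2 ⟨mem_univ _, mem_product.2
        ⟨mem_filter.2 ⟨mem_univ _, h1.2⟩, mem_univ _⟩⟩)
    · intro h hh h' hh' he
      obtain ⟨c, hc⟩ := (mem_filter.1 (mem_coe.1 hh)).2.1
      obtain ⟨c', hc'⟩ := (mem_filter.1 (mem_coe.1 hh')).2.1
      simp only [Prod.mk.injEq] at he
      obtain ⟨e1, e2, e3⟩ := he
      funext i
      have g1 : (h i).1 = (h' i).1 := by
        rw [hc i, ← hc ⟨0, ht⟩, e1, hc' ⟨0, ht⟩, hc' i]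
      have g2 : (h i).2.1 = (h' i).2.1 := congrFun e2 i
      have g3 : (h i).2.2 = (h' i).2.2 := congrFun e3 i
      exact Prod.ext g1 (Prod.ext g2 g3)
  refine this.trans (le_of_eq ?_)
  rw [card_product, card_product, card_univ, card_univ, Fintype.card_fin, Fintype.card_fun,
    Fintype.card_fin]
  have hV : Fintype.card (V j) = 2 ^ j := by simp
  rw [hV]

open Classical in
/-- labels that form `s` pairs inside classes, with the same sums of vectors -/
noncomputable def SD (s m : ℕ) (Λ : Type) [Fintype Λ] [DecidableEq Λ] (j : ℕ) :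
    Finset (Fin s × Fin 2 → Lab m Λ j) :=
  univ.filter fun h => ∃ w : V j, ∀ i, ((h (i, 0)).1, (h (i, 0)).2.1) = ((h (i, 1)).1, (h (i, 1)).2.1) ∧
    (h (i, 0)).2.2 + (h (i, 1)).2.2 = w

lemma card_SD (hs : 0 < s) : (SD s m Λ j).card ≤ (Fintype.card (Lab m Λ j)) ^ s * 2 ^ j := by
  classical
  have : (SD s m Λ j).card ≤ (univ : Finset ((Fin s → Lab m Λ j) × V j)).card := by
    refine card_le_card_of_injOn (fun h => (fun i => h (i, 0),
      (h (⟨0, hs⟩, 0)).2.2 + (h (⟨0, hs⟩, 1)).2.2)) (fun _ _ => mem_coe.2 (mem_univ _)) ?_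
    intro h hh h' hh' he
    obtain ⟨w, hw⟩ := (mem_filter.1 (mem_coe.1 hh)).2
    obtain ⟨w', hw'⟩ := (mem_filter.1 (mem_coe.1 hh')).2
    simp only [Prod.mk.injEq] at he
    obtain ⟨e1, e2⟩ := he
    have hww : w = w' := by rw [← (hw ⟨0, hs⟩).2, ← (hw' ⟨0, hs⟩).2, e2]
    have h0 : ∀ i, h (i, 0) = h' (i, 0) := fun i => congrFun e1 i
    funext x
    obtain ⟨i, ε⟩ := x
    fin_cases ε
    · exact h0 i
    · show h (i, 1) = h' (i, 1)
      have a1 := (hw i).1
      have a2 := (hw' i).1
      have b1 := (hw i).2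
      have b2 := (hw' i).2
      rw [Prod.mk.injEq] at a1 a2
      have g1 : (h (i, 1)).1 = (h' (i, 1)).1 := by rw [← a1.1, ← a2.1, h0]
      have g2 : (h (i, 1)).2.1 = (h' (i, 1)).2.1 := by rw [← a1.2, ← a2.2, h0]
      have g3 : (h (i, 1)).2.2 = (h' (i, 1)).2.2 := by
        rw [h0, hww, ← b2] at b1
        exact add_left_cancel b1
      exact Prod.ext g1 (Prod.ext g2 g3)
  refine this.trans (le_of_eq ?_)
  have hV : Fintype.card (V j) = 2 ^ j := by simp
  rw [card_univ, Fintype.card_prod, hV, Fintype.card_fun, Fintype.card_fin]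

/-- the number of arrangements of a set without multiplicities -/
lemma card_arr {Z : Finset (Fin n)} (hZ : Z.card = 2 * s) :
    open Classical in (univ.filter fun b : Fin s × Fin 2 → Fin n =>
      Function.Injective b ∧ univ.image b = Z).card ≤ (2 * s).factorial := by
  classical
  have hcZ : Fintype.card Z = 2 * s := by rw [Fintype.card_coe, hZ]
  have hc2 : Fintype.card (Fin s × Fin 2) = 2 * s := by
    rw [Fintype.card_prod, Fintype.card_fin, Fintype.card_fin, mul_comm]
  have e0 : Fin s × Fin 2 ≃ Z := Fintype.equivOfCardEq (by rw [hcZ, hc2])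
  have hcard : Fintype.card (Fin s × Fin 2 ≃ Z) = (2 * s).factorial := by
    rw [Fintype.card_equiv e0, hc2]
  rw [← hcard, ← Fintype.card_coe]
  have hmem : ∀ b : (univ.filter fun b : Fin s × Fin 2 → Fin n =>
      Function.Injective b ∧ univ.image b = Z : Finset (Fin s × Fin 2 → Fin n)),
        ∀ i, b.1 i ∈ Z := by
    intro b i
    have := (mem_filter.1 b.2).2.2
    have h3 : b.1 i ∈ univ.image b.1 := mem_image_of_mem _ (mem_univ _)
    rw [this] at h3
    exact h3
  have hbij : ∀ b : (univ.filter fun b : Fin s × Fin 2 → Fin n =>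
      Function.Injective b ∧ univ.image b = Z : Finset (Fin s × Fin 2 → Fin n)),
      Function.Bijective (fun i => (⟨b.1 i, hmem b i⟩ : Z)) := by
    intro b
    have hi := (mem_filter.1 b.2).2.1
    refine (Fintype.bijective_iff_injective_and_card _).2 ⟨?_, by rw [hcZ, hc2]⟩
    intro x y h
    exact hi (congrArg Subtype.val h)
  refine Fintype.card_le_of_injective (fun b => Equiv.ofBijective _ (hbij b)) ?_
  intro b b' h
  apply Subtype.ext
  funext i
  have := congrArg (fun σ : Fin s × Fin 2 ≃ Z => ((σ i : Z) : Fin n)) h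
  exact this

/-- a block of coloured pairs has many arrangements -/
lemma many_arr {f : Fin n → Lab m Λ j} {Z : Finset (Fin n)} {b0 : Fin s × Fin 2 → Fin n}
    (hb0 : Function.Injective b0) (hZ : univ.image b0 = Z) (hG : Good f b0) :
    open Classical in 2 ^ s * s.factorial ≤ (univ.filter fun b : Fin s × Fin 2 → Fin n =>
      (Function.Injective b ∧ univ.image b = Z) ∧ Good f b).card := by
  classical
  obtain ⟨w, hw⟩ := hG
  have hk : ∀ i (ε ε' : Fin 2), kap f (b0 (i, ε)) = kap f (b0 (i, ε')) := by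
    intro i ε ε'
    have := (hw i).1
    fin_cases ε <;> fin_cases ε'
    · rfl
    · exact this
    · exact this.symm
    · rfl
  have hcard : 2 ^ s * s.factorial =
      Fintype.card (Equiv.Perm (Fin s) × (Fin s → Equiv.Perm (Fin 2))) := by
    rw [Fintype.card_prod, Fintype.card_perm, Fintype.card_fun, Fintype.card_perm,
      Fintype.card_fin, Fintype.card_fin]
    norm_num [Nat.factorial, mul_comm]
  rw [hcard, ← card_univ]
  let F : Equiv.Perm (Fin s) × (Fin s → Equiv.Perm (Fin 2)) → (Fin s × Fin 2 → Fin n) :=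
    fun στ x => b0 (στ.1 x.1, στ.2 x.1 x.2)
  have hinjF : ∀ στ, Function.Injective (F στ) := by
    rintro ⟨σ, τ⟩ ⟨i, ε⟩ ⟨i', ε'⟩ h
    have h1 := hb0 h
    rw [Prod.mk.injEq] at h1
    obtain ⟨h2, h3⟩ := h1
    have h4 : i = i' := σ.injective h2
    subst h4
    have h5 : ε = ε' := (τ i).injective h3
    rw [h5]
  refine card_le_card_of_injOn F ?_ ?_
  · rintro ⟨σ, τ⟩ -
    refine mem_coe.2 (mem_filter.2 ⟨mem_univ _, ⟨hinjF _, ?_⟩, w, fun i => ⟨hk _ _ _, ?_⟩⟩)
    · have h1 : univ.image (F (σ, τ)) ⊆ Z := by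
        intro v hv
        obtain ⟨x, -, rfl⟩ := mem_image.1 hv
        rw [← hZ]
        exact mem_image_of_mem _ (mem_univ _)
      refine eq_of_subset_of_card_le h1 ?_
      rw [← hZ, card_image_of_injective _ hb0, card_image_of_injective _ (hinjF _)]
    · have h1 := (hw (σ i)).2
      show vec f (b0 (σ i, τ i 0)) + vec f (b0 (σ i, τ i 1)) = w
      have h2 : ∑ ε : Fin 2, vec f (b0 (σ i, τ i ε)) = ∑ ε : Fin 2, vec f (b0 (σ i, ε)) :=
        Equiv.sum_comp (τ i) (fun ε => vec f (b0 (σ i, ε)))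
      rw [Fin.sum_univ_two, Fin.sum_univ_two] at h2
      rw [h2, h1]
  · rintro ⟨σ, τ⟩ - ⟨σ', τ'⟩ - h
    have h1 : ∀ i ε, σ i = σ' i ∧ τ i ε = τ' i ε := by
      intro i ε
      have := hb0 (congrFun h (i, ε))
      rw [Prod.mk.injEq] at this
      exact this
    have h2 : σ = σ' := Equiv.ext fun i => (h1 i 0).1
    have h3 : τ = τ' := funext fun i => Equiv.ext fun ε => (h1 i ε).2
    rw [h2, h3]

/-- the expected density of the blocks -/
noncomputable def dens (s N b m j : ℕ) : ℝ :=
  (b : ℝ) / ((N : ℝ) ^ (2 * s) * (m : ℝ) ^ (2 * s - 1)) +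
    ((2 * s).factorial : ℝ) / (2 ^ s * (s.factorial : ℝ)) / (((m : ℝ) * (N : ℝ)) ^ s * (2 ^ j) ^ (s - 1))

/-- the number of maps for which a set is a block -/
theorem card_bad [Nonempty Λ] (hs : 0 < s) (Q : Finset (Finset Λ)) {Z : Finset (Fin n)}
    (hZ : Z.card = 2 * s) :
    open Classical in ((univ.filter fun f : Fin n → Lab m Λ j => Bad s Q f Z).card : ℝ) ≤
      dens s (Fintype.card Λ) (B (2 * s) Q).card m j * (Fintype.card (Lab m Λ j) : ℝ) ^ n := by
  classical
  set N := Fintype.card Λ with hN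
  have hN0 : 0 < N := Fintype.card_pos
  have hm0 : 0 < m := Nat.pos_of_ne_zero (NeZero.ne m)
  have hT : Fintype.card (Lab m Λ j) = m * (N * 2 ^ j) := by
    rw [Fintype.card_prod, Fintype.card_prod, Fintype.card_fin]
    simp [hN]
  set T := Fintype.card (Lab m Λ j) with hTdef
  have hT0 : 0 < T := by rw [hT]; positivity
  -- the first type
  set E1 := univ.filter fun f : Fin n → Lab m Λ j =>
    (∃ c, ∀ v ∈ Z, (f v).1 = c) ∧ Z.image (fun v => (f v).2.1) ∈ Q with hE1
  set E2 := univ.filter fun f : Fin n → Lab m Λ j =>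
    ∃ b : Fin s × Fin 2 → Fin n, Function.Injective b ∧ univ.image b = Z ∧ Good f b with hE2
  have h1 : E1.card * T ^ (2 * s) ≤ m * ((B (2 * s) Q).card * (2 ^ j) ^ (2 * s)) * T ^ n := by
    let g : Fin (2 * s) → Fin n := fun i => Z.orderEmbOfFin hZ i
    have hg : Function.Injective g := fun a b h => (Z.orderEmbOfFin hZ).injective h
    have hgZ : univ.image g = Z := by
      have := Z.image_orderEmbOfFin_univ hZ
      exact this
    have hsub : E1 ⊆ univ.filter fun f : Fin n → Lab m Λ j => (fun i => f (g i)) ∈ SP (2 * s) m j Q := by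
      intro f hf
      obtain ⟨⟨c, hc⟩, hQ⟩ := (mem_filter.1 hf).2
      refine mem_filter.2 ⟨mem_univ _, mem_filter.2 ⟨mem_univ _, ⟨c, fun i => hc _ ?_⟩, ?_⟩⟩
      · rw [← hgZ]
        exact mem_image_of_mem _ (mem_univ _)
      · rw [← hgZ, image_image] at hQ
        exact hQ
    have h2 := card_pre (m := m) (Λ := Λ) (j := j) hg (SP (2 * s) m j Q)
    rw [Fintype.card_fin] at h2
    calc E1.card * T ^ (2 * s) ≤ (univ.filter fun f : Fin n → Lab m Λ j =>
          (fun i => f (g i)) ∈ SP (2 * s) m j Q).card * T ^ (2 * s) :=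
          Nat.mul_le_mul_right _ (card_le_card hsub)
      _ = (SP (2 * s) m j Q).card * T ^ n := h2
      _ ≤ _ := Nat.mul_le_mul_right _ (card_SP (by omega) Q)
  -- the second type
  have h2 : E2.card * (2 ^ s * s.factorial) * T ^ (2 * s) ≤
      (2 * s).factorial * (T ^ s * 2 ^ j * T ^ n) := by
    have ha : E2.card * (2 ^ s * s.factorial) ≤ ∑ f : Fin n → Lab m Λ j,
        (univ.filter fun b : Fin s × Fin 2 → Fin n =>
          (Function.Injective b ∧ univ.image b = Z) ∧ Good f b).card := by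
      rw [← smul_eq_mul, ← sum_const]
      refine le_trans (sum_le_sum fun f hf => ?_) (sum_le_sum_of_subset (subset_univ E2))
      obtain ⟨b0, hb0, hbZ, hG⟩ := (mem_filter.1 hf).2
      exact many_arr hb0 hbZ hG
    have hb : ∑ f : Fin n → Lab m Λ j, (univ.filter fun b : Fin s × Fin 2 → Fin n =>
          (Function.Injective b ∧ univ.image b = Z) ∧ Good f b).card =
        ∑ b ∈ univ.filter (fun b : Fin s × Fin 2 → Fin n =>
          Function.Injective b ∧ univ.image b = Z),
          (univ.filter fun f : Fin n → Lab m Λ j => Good f b).card := by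
      simp only [card_filter]
      rw [sum_comm, sum_filter]
      refine sum_congr rfl fun b _ => ?_
      by_cases hb : Function.Injective b ∧ univ.image b = Z
      · simp [hb]
      · simp [hb]
    have hc : ∀ b ∈ univ.filter (fun b : Fin s × Fin 2 → Fin n =>
          Function.Injective b ∧ univ.image b = Z),
        (univ.filter fun f : Fin n → Lab m Λ j => Good f b).card * T ^ (2 * s) ≤
          T ^ s * 2 ^ j * T ^ n := by
      intro b hb
      have hbi := (mem_filter.1 hb).2.1
      have h3 := card_pre (m := m) (Λ := Λ) (j := j) hbi (SD s m Λ j)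
      have hc2 : Fintype.card (Fin s × Fin 2) = 2 * s := by
        rw [Fintype.card_prod, Fintype.card_fin, Fintype.card_fin, mul_comm]
      rw [hc2] at h3
      have hsub : (univ.filter fun f : Fin n → Lab m Λ j => Good f b) ⊆
          univ.filter fun f : Fin n → Lab m Λ j => (fun i => f (b i)) ∈ SD s m Λ j := by
        intro f hf
        obtain ⟨w, hw⟩ := (mem_filter.1 hf).2
        exact mem_filter.2 ⟨mem_univ _, mem_filter.2 ⟨mem_univ _, w, fun i => hw i⟩⟩
      calc (univ.filter fun f : Fin n → Lab m Λ j => Good f b).card * T ^ (2 * s)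
          ≤ _ := Nat.mul_le_mul_right _ (card_le_card hsub)
        _ = (SD s m Λ j).card * T ^ n := by convert h3
        _ ≤ _ := Nat.mul_le_mul_right _ (card_SD hs)
    calc E2.card * (2 ^ s * s.factorial) * T ^ (2 * s)
        ≤ (∑ b ∈ univ.filter (fun b : Fin s × Fin 2 → Fin n =>
          Function.Injective b ∧ univ.image b = Z),
          (univ.filter fun f : Fin n → Lab m Λ j => Good f b).card) * T ^ (2 * s) :=
          Nat.mul_le_mul_right _ (ha.trans (le_of_eq hb))
      _ = ∑ b ∈ univ.filter (fun b : Fin s × Fin 2 → Fin n =>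
          Function.Injective b ∧ univ.image b = Z),
          (univ.filter fun f : Fin n → Lab m Λ j => Good f b).card * T ^ (2 * s) := sum_mul _ _ _
      _ ≤ ∑ _b ∈ univ.filter (fun b : Fin s × Fin 2 → Fin n =>
          Function.Injective b ∧ univ.image b = Z), T ^ s * 2 ^ j * T ^ n := sum_le_sum hc
      _ = _ := by rw [sum_const, smul_eq_mul]
      _ ≤ _ := Nat.mul_le_mul_right _ (card_arr hZ)
  have hsub : (univ.filter fun f : Fin n → Lab m Λ j => Bad s Q f Z) ⊆ E1 ∪ E2 := by
    intro f hf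
    rcases (mem_filter.1 hf).2 with h | h
    · exact mem_union_left _ (mem_filter.2 ⟨mem_univ _, h⟩)
    · exact mem_union_right _ (mem_filter.2 ⟨mem_univ _, h⟩)
  have hle : ((univ.filter fun f : Fin n → Lab m Λ j => Bad s Q f Z).card : ℝ) ≤
      (E1.card : ℝ) + E2.card := by
    exact_mod_cast (card_le_card hsub).trans (card_union_le _ _)
  refine hle.trans ?_
  have hT' : (0 : ℝ) < T := by exact_mod_cast hT0
  have hm' : (0 : ℝ) < m := by exact_mod_cast hm0
  have hN' : (0 : ℝ) < N := by exact_mod_cast hN0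
  have hcast : (T : ℝ) = (m : ℝ) * ((N : ℝ) * 2 ^ j) := by
    rw [hT]; push_cast; ring
  have h1' : (E1.card : ℝ) * (T : ℝ) ^ (2 * s) ≤
      (m : ℝ) * ((B (2 * s) Q).card * (2 ^ j) ^ (2 * s)) * (T : ℝ) ^ n := by exact_mod_cast h1
  have h2' : (E2.card : ℝ) * (2 ^ s * (s.factorial : ℝ)) * (T : ℝ) ^ (2 * s) ≤
      ((2 * s).factorial : ℝ) * ((T : ℝ) ^ s * 2 ^ j * (T : ℝ) ^ n) := by exact_mod_cast h2
  unfold dens
  rw [add_mul]
  refine add_le_add ?_ ?_
  · rw [← le_div_iff₀ (by positivity)] at h1'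
    refine h1'.trans (le_of_eq ?_)
    have e1 : (m : ℝ) ^ (2 * s) = m * (m : ℝ) ^ (2 * s - 1) := by
      rw [← pow_succ']
      congr 1
      omega
    have e3 : (T : ℝ) ^ (2 * s) = ((m : ℝ) * (m : ℝ) ^ (2 * s - 1)) *
        ((N : ℝ) ^ (2 * s) * (2 ^ j) ^ (2 * s)) := by
      rw [hcast, mul_pow, mul_pow, e1]
    rw [e3]
    field_simp
  · have hf : (0 : ℝ) < (s.factorial : ℝ) := by exact_mod_cast s.factorial_pos
    rw [mul_assoc, ← le_div_iff₀ (by positivity)] at h2'
    refine h2'.trans (le_of_eq ?_)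
    have e1 : (T : ℝ) ^ (2 * s) = (T : ℝ) ^ s * (((m : ℝ) * N) ^ s * (2 ^ j) ^ s) := by
      rw [two_mul, pow_add]
      congr 1
      rw [hcast, ← mul_assoc, mul_pow]
    have e2 : ((2 : ℝ) ^ j) ^ s = 2 ^ j * (2 ^ j) ^ (s - 1) := by
      rw [← pow_succ']
      congr 1
      omega
    rw [e1, e2]
    field_simp

/-- the systems on `n` points -/
theorem main [Nonempty Λ] (hs : 1 ≤ s) {Q : Finset (Finset Λ)} {a : ℕ}
    (hcov : ∀ X : Finset Λ, X.card = a + 1 → ∃ e ∈ Q, e ⊆ X)
    (hQ : ∀ e ∈ Q, e.card = 2 * s) (m j : ℕ) [NeZero m] (σ : ℕ)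
    (hσ : 2 * s + σ = a * m + (s - 1) * (2 ^ j + 1) + 1) :
    Pool.Agent.H613T.TD σ (2 * s) (dens s (Fintype.card Λ) (B (2 * s) Q).card m j) := by
  classical
  intro n
  set F : (Fin n → Lab m Λ j) → Finset (Finset (Fin n)) := fun f =>
    (powersetCard (2 * s) univ).filter fun Z => Bad s Q f Z with hF
  have hsum : ∑ f, ((F f).card : ℝ) ≤ (n.choose (2 * s) : ℝ) *
      (dens s (Fintype.card Λ) (B (2 * s) Q).card m j * (Fintype.card (Lab m Λ j) : ℝ) ^ n) := by
    have h1 : ∑ f, ((F f).card : ℝ) = ∑ Z ∈ powersetCard (2 * s) (univ : Finset (Fin n)),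
        ((univ.filter fun f : Fin n → Lab m Λ j => Bad s Q f Z).card : ℝ) := by
      simp only [hF, card_filter]
      push_cast
      rw [sum_comm]
    rw [h1]
    calc ∑ Z ∈ powersetCard (2 * s) (univ : Finset (Fin n)),
          ((univ.filter fun f : Fin n → Lab m Λ j => Bad s Q f Z).card : ℝ)
        ≤ ∑ _Z ∈ powersetCard (2 * s) (univ : Finset (Fin n)),
          (dens s (Fintype.card Λ) (B (2 * s) Q).card m j *
            (Fintype.card (Lab m Λ j) : ℝ) ^ n) :=
          sum_le_sum fun Z hZ => card_bad hs Q (mem_powersetCard.1 hZ).2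
      _ = _ := by rw [sum_const, card_powersetCard, card_univ, Fintype.card_fin, nsmul_eq_mul]
  obtain ⟨f, -, hf⟩ : ∃ f ∈ (univ : Finset (Fin n → Lab m Λ j)), ((F f).card : ℝ) ≤
      (n.choose (2 * s) : ℝ) * dens s (Fintype.card Λ) (B (2 * s) Q).card m j := by
    refine exists_le_of_sum_le (univ_nonempty) ?_
    rw [sum_const, card_univ, nsmul_eq_mul, Fintype.card_fun, Fintype.card_fin]
    refine hsum.trans (le_of_eq ?_)
    push_cast
    ring
  refine ⟨F f, ⟨fun Z hZ => ⟨subset_univ _, (mem_powersetCard.1 (mem_filter.1 hZ).1).2⟩,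
    fun Y _ hY => ?_⟩, ?_⟩
  · obtain ⟨Z, hZY, hZc, hZb⟩ := cover hs hcov hQ f (Y := Y) (by omega)
    exact ⟨Z, mem_filter.2 ⟨mem_powersetCard.2 ⟨subset_univ _, hZc⟩, hZb⟩, hZY⟩
  · rw [mul_comm]
    exact hf

end Pool.Agent.H69.ColE
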