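import Pool.Agent.H69.Col4.Cover

/-!
Systems of `2 s`-sets with coloured repetitions.  Every vertex gets a component, a label and a vector
over the field with two elements.  The blocks are the `2 s`-sets inside one component whose labels form
a member of the base system, and the `2 s`-sets that consist of `s` disjoint pairs, each inside one class
(component and label), all the pairs having the same sum of vectors.
-/

set_option autoImplicit false
set_option linter.unusedSectionVars false

open Finset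

namespace Pool.Agent.H69.ColE

open Pool.Agent.X44.TS (V add_self_V card_fib)
open Pool.Agent.H69.Col4 (Lab kap vec)

variable {Λ : Type} [Fintype Λ] [DecidableEq Λ] {m j n s : ℕ}

/-- `s` pairs of vertices, each inside one class, with the same sum of vectors -/
def Good (f : Fin n → Lab m Λ j) (b : Fin s × Fin 2 → Fin n) : Prop :=
  ∃ w : V j, ∀ i, kap f (b (i, 0)) = kap f (b (i, 1)) ∧ vec f (b (i, 0)) + vec f (b (i, 1)) = w

/-- the blocks -/
def Bad (s : ℕ) (Q : Finset (Finset Λ)) (f : Fin n → Lab m Λ j) (Z : Finset (Fin n)) : Prop :=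
  ((∃ c, ∀ v ∈ Z, (f v).1 = c) ∧ Z.image (fun v => (f v).2.1) ∈ Q) ∨
  (∃ b : Fin s × Fin 2 → Fin n, Function.Injective b ∧ univ.image b = Z ∧ Good f b)

/-- a family of ordered pairs without common elements -/
structure Disj (C : Finset (Fin n × Fin n)) : Prop where
  fst : ∀ p ∈ C, ∀ q ∈ C, p.1 = q.1 → p = q
  snd : ∀ p ∈ C, ∀ q ∈ C, p.2 = q.2 → p = q
  ne : ∀ p ∈ C, ∀ q ∈ C, p.1 ≠ q.2

lemma exists_block {C : Finset (Fin n × Fin n)} (hC : Disj C) (hs : s ≤ C.card) {Y : Finset (Fin n)}
    {f : Fin n → Lab m Λ j} (hY : ∀ p ∈ C, p.1 ∈ Y ∧ p.2 ∈ Y) {w : V j}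
    (hw : ∀ p ∈ C, kap f p.1 = kap f p.2 ∧ vec f p.1 + vec f p.2 = w) :
    ∃ Z ⊆ Y, Z.card = 2 * s ∧ ∃ b : Fin s × Fin 2 → Fin n,
      Function.Injective b ∧ univ.image b = Z ∧ Good f b := by
  classical
  obtain ⟨C', hC', hc⟩ := exists_subset_card_eq hs
  let e : Fin s ≃ C' := (finCongr hc.symm).trans C'.equivFin.symm
  have he : ∀ i, (e i : Fin n × Fin n) ∈ C := fun i => hC' (e i).2
  let b : Fin s × Fin 2 → Fin n := fun x => if x.2 = 0 then (e x.1 : Fin n × Fin n).1
    else (e x.1 : Fin n × Fin n).2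
  have hb0 : ∀ i, b (i, 0) = (e i : Fin n × Fin n).1 := fun i => by simp [b]
  have hb1 : ∀ i, b (i, 1) = (e i : Fin n × Fin n).2 := fun i => by simp [b]
  have hinj : Function.Injective b := by
    rintro ⟨i, ε⟩ ⟨i', ε'⟩ h
    fin_cases ε <;> fin_cases ε'
    · have h' : (e i : Fin n × Fin n).1 = (e i' : Fin n × Fin n).1 := by
        rw [← hb0, ← hb0]; exact h
      have := e.injective (Subtype.ext (hC.fst _ (he i) _ (he i') h'))
      rw [this]
    · exact absurd (show (e i : Fin n × Fin n).1 = (e i' : Fin n × Fin n).2 by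
        rw [← hb0, ← hb1]; exact h) (hC.ne _ (he i) _ (he i'))
    · exact absurd (show (e i' : Fin n × Fin n).1 = (e i : Fin n × Fin n).2 by
        rw [← hb0, ← hb1]; exact h.symm) (hC.ne _ (he i') _ (he i))
    · have h' : (e i : Fin n × Fin n).2 = (e i' : Fin n × Fin n).2 := by
        rw [← hb1, ← hb1]; exact h
      have := e.injective (Subtype.ext (hC.snd _ (he i) _ (he i') h'))
      rw [this]
  refine ⟨univ.image b, ?_, ?_, b, hinj, rfl, w, fun i => ?_⟩
  · intro x hx
    obtain ⟨⟨i, ε⟩, -, rfl⟩ := mem_image.1 hx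
    fin_cases ε
    · show b (i, 0) ∈ Y
      rw [hb0]
      exact (hY _ (he i)).1
    · show b (i, 1) ∈ Y
      rw [hb1]
      exact (hY _ (he i)).2
  · rw [card_image_of_injective _ hinj, card_univ, Fintype.card_prod, Fintype.card_fin,
      Fintype.card_fin, mul_comm]
  · rw [hb0, hb1]
    exact hw _ (he i)

/-- pairs of vertices with the same value, and a set on which the values are different -/
lemma exists_clones {α : Type} (f : Fin n → α) (Y : Finset (Fin n)) :
    ∃ C : Finset (Fin n × Fin n), Disj C ∧ (∀ p ∈ C, p.1 ∈ Y ∧ p.2 ∈ Y ∧ f p.1 = f p.2) ∧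
      ∃ D ⊆ Y, Set.InjOn f D ∧ Y.card ≤ D.card + 2 * C.card := by
  classical
  induction' hk : Y.card using Nat.strong_induction_on with k ih generalizing Y
  by_cases hinj : Set.InjOn f Y
  · refine ⟨∅, ⟨by simp, by simp, by simp⟩, by simp, Y, subset_rfl, hinj, ?_⟩
    rw [hk]
    simp
  · simp only [Set.InjOn, not_forall] at hinj
    obtain ⟨v, hv, v', hv', he, hne⟩ := hinj
    rw [mem_coe] at hv hv'
    have hv'e : v' ∈ Y.erase v := mem_erase.2 ⟨fun h => hne h.symm, hv'⟩
    have hc1 : (Y.erase v).card = Y.card - 1 := card_erase_of_mem hv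
    have hc2 : ((Y.erase v).erase v').card = (Y.erase v).card - 1 := card_erase_of_mem hv'e
    have hpos : 0 < (Y.erase v).card := card_pos.2 ⟨v', hv'e⟩
    obtain ⟨C, hC, hCY, D, hD, hDi, hDc⟩ := ih _ (by omega) ((Y.erase v).erase v') rfl
    have hn1 : ∀ p ∈ C, p.1 ≠ v ∧ p.1 ≠ v' ∧ p.2 ≠ v ∧ p.2 ≠ v' := by
      intro p hp
      obtain ⟨h1, h2, -⟩ := hCY p hp
      rw [mem_erase, mem_erase] at h1 h2
      exact ⟨h1.2.1, h1.1, h2.2.1, h2.1⟩
    have hnot : (v, v') ∉ C := fun h => (hn1 _ h).1 rfl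
    refine ⟨insert (v, v') C, ⟨?_, ?_, ?_⟩, ?_, D, ?_, hDi, ?_⟩
    · intro p hp q hq h
      rcases mem_insert.1 hp with rfl | hp <;> rcases mem_insert.1 hq with rfl | hq
      · rfl
      · exact absurd h.symm (hn1 q hq).1
      · exact absurd h (hn1 p hp).1
      · exact hC.fst p hp q hq h
    · intro p hp q hq h
      rcases mem_insert.1 hp with rfl | hp <;> rcases mem_insert.1 hq with rfl | hq
      · rfl
      · exact absurd h.symm (hn1 q hq).2.2.2
      · exact absurd h (hn1 p hp).2.2.2
      · exact hC.snd p hp q hq h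
    · intro p hp q hq
      rcases mem_insert.1 hp with rfl | hp <;> rcases mem_insert.1 hq with rfl | hq
      · exact hne
      · exact fun h => (hn1 q hq).2.2.1 h.symm
      · exact (hn1 p hp).2.1
      · exact hC.ne p hp q hq
    · intro p hp
      rcases mem_insert.1 hp with rfl | hp
      · exact ⟨hv, hv', he⟩
      · obtain ⟨h1, h2, h3⟩ := hCY p hp
        exact ⟨(mem_erase.1 (mem_erase.1 h1).2).2, (mem_erase.1 (mem_erase.1 h2).2).2, h3⟩
    · exact hD.trans ((erase_subset _ _).trans (erase_subset _ _))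
    · rw [card_insert_of_notMem hnot]
      omega

/-- the number of classes that a set without blocks meets -/
lemma classes {Q : Finset (Finset Λ)} {a : ℕ}
    (hcov : ∀ X : Finset Λ, X.card = a + 1 → ∃ e ∈ Q, e ⊆ X)
    (hQ : ∀ e ∈ Q, e.card = 2 * s) (f : Fin n → Lab m Λ j) {Y : Finset (Fin n)}
    (hcon : ∀ Z ⊆ Y, Z.card = 2 * s → ¬ Bad s Q f Z) : (Y.image (kap f)).card ≤ a * m := by
  classical
  rcases Y.eq_empty_or_nonempty with rfl | hne
  · simp
  set S := Y.image (kap f) with hS
  have h1 : S.card = ∑ c : Fin m, (S.filter fun k => k.1 = c).card :=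
    card_eq_sum_card_fiberwise fun _ _ => mem_coe.2 (mem_univ _)
  have h2 : ∀ c : Fin m, (S.filter fun k => k.1 = c).card ≤ a := by
    intro c
    by_contra hlt
    have hinj : Set.InjOn Prod.snd
        ((S.filter fun k => k.1 = c : Finset (Fin m × Λ)) : Set (Fin m × Λ)) := by
      rintro ⟨c1, l1⟩ h1 ⟨c2, l2⟩ h2 h
      have e1 := (mem_filter.1 (mem_coe.1 h1)).2
      have e2 := (mem_filter.1 (mem_coe.1 h2)).2
      simp only at e1 e2 h
      rw [e1, e2, h]
    obtain ⟨X, hX, hXc⟩ := exists_subset_card_eq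
      (show a + 1 ≤ ((S.filter fun k => k.1 = c).image Prod.snd).card by
        rw [card_image_of_injOn hinj]; omega)
    obtain ⟨e, he, heX⟩ := hcov X hXc
    have hg : ∀ l : Λ, ∃ v : Fin n, l ∈ e → v ∈ Y ∧ kap f v = (c, l) := by
      intro l
      by_cases hl : l ∈ e
      · obtain ⟨⟨c', l'⟩, hk, hkl⟩ := mem_image.1 (hX (heX hl))
        obtain ⟨hkS, hkc⟩ := mem_filter.1 hk
        obtain ⟨v, hv, hvk⟩ := mem_image.1 hkS
        simp only at hkc hkl
        exact ⟨v, fun _ => ⟨hv, by rw [hvk, hkc, hkl]⟩⟩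
      · exact ⟨hne.choose, fun h => absurd h hl⟩
    choose g hg using hg
    have hginj : Set.InjOn g e := by
      intro l hl l' hl' h
      have h1 := (hg l hl).2
      have h2 := (hg l' hl').2
      rw [h, h2] at h1
      exact (Prod.mk.inj h1).2.symm
    refine hcon (e.image g) ?_ (by rw [card_image_of_injOn hginj, hQ e he]) (Or.inl ⟨⟨c, ?_⟩, ?_⟩)
    · intro v hv
      obtain ⟨l, hl, rfl⟩ := mem_image.1 hv
      exact (hg l hl).1
    · intro v hv
      obtain ⟨l, hl, rfl⟩ := mem_image.1 hv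
      exact congrArg Prod.fst (hg l hl).2
    · have : (e.image g).image (fun v => (f v).2.1) = e := by
        ext l
        rw [image_image, mem_image]
        constructor
        · rintro ⟨l', hl', rfl⟩
          have := congrArg Prod.snd (hg l' hl').2
          simp only [kap] at this
          simp only [Function.comp]
          rw [this]
          exact hl'
        · intro hl
          exact ⟨l, hl, congrArg Prod.snd (hg l hl).2⟩
      rw [this]
      exact he
  calc S.card = ∑ c : Fin m, (S.filter fun k => k.1 = c).card := h1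
    _ ≤ ∑ _c : Fin m, a := sum_le_sum fun c _ => h2 c
    _ = a * m := by rw [sum_const, card_univ, Fintype.card_fin, smul_eq_mul, mul_comm]

/-- the covering property -/
theorem cover (hs : 1 ≤ s) {Q : Finset (Finset Λ)} {a : ℕ}
    (hcov : ∀ X : Finset Λ, X.card = a + 1 → ∃ e ∈ Q, e ⊆ X)
    (hQ : ∀ e ∈ Q, e.card = 2 * s) (f : Fin n → Lab m Λ j) {Y : Finset (Fin n)}
    (hY : Y.card = a * m + (s - 1) * (2 ^ j + 1) + 1) :
    ∃ Z ⊆ Y, Z.card = 2 * s ∧ Bad s Q f Z := by
  classical
  by_contra hcon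
  push Not at hcon
  have hblock : ∀ (C : Finset (Fin n × Fin n)) (w : V j), Disj C → (∀ p ∈ C, p.1 ∈ Y ∧ p.2 ∈ Y) →
      (∀ p ∈ C, kap f p.1 = kap f p.2 ∧ vec f p.1 + vec f p.2 = w) → C.card ≤ s - 1 := by
    intro C w hC hCY hw
    by_contra hlt
    obtain ⟨Z, hZ, hZc, hb⟩ := exists_block (s := s) hC (by omega) hCY hw
    exact hcon Z hZ hZc (Or.inr hb)
  obtain ⟨C, hC, hCY, D, hD, hDi, hDc⟩ := exists_clones f Y
  have hCc : C.card ≤ s - 1 := by
    refine hblock C 0 hC (fun p hp => ⟨(hCY p hp).1, (hCY p hp).2.1⟩) fun p hp => ?_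
    have := (hCY p hp).2.2
    refine ⟨by unfold kap; rw [this], ?_⟩
    unfold vec
    rw [this, add_self_V]
  set S := D.image (kap f) with hS
  have hScard : S.card ≤ a * m := classes hcov hQ f fun Z hZ => hcon Z (hZ.trans hD)
  -- representatives
  have hrep : ∀ k : Fin m × Λ, ∃ v : Fin n, k ∈ S → v ∈ D ∧ kap f v = k := by
    intro k
    by_cases hk : k ∈ S
    · obtain ⟨v, hv, hvk⟩ := mem_image.1 hk
      exact ⟨v, fun _ => ⟨hv, hvk⟩⟩
    · have : Y.Nonempty := card_pos.1 (by omega)
      exact ⟨this.choose, fun h => absurd h hk⟩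
  choose g hg using hrep
  have hmemS : ∀ v ∈ D, kap f v ∈ S := fun v hv => mem_image_of_mem _ hv
  set R := D.filter fun v => g (kap f v) ≠ v with hR
  have hDR : D.card ≤ S.card + R.card := by
    have h1 : (D.filter fun v => ¬ g (kap f v) ≠ v).card ≤ S.card := by
      refine card_le_card_of_injOn (kap f) ?_ ?_
      · intro v hv
        exact mem_coe.2 (hmemS v (mem_filter.1 (mem_coe.1 hv)).1)
      · intro v hv v' hv' h
        have e1 := not_not.1 (mem_filter.1 (mem_coe.1 hv)).2
        have e2 := not_not.1 (mem_filter.1 (mem_coe.1 hv')).2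
        rw [← e1, ← e2, h]
    have h2 := card_filter_add_card_filter_not (s := D) (fun v => g (kap f v) ≠ v)
    rw [← hR] at h2
    omega
  have hRw : ∀ w : V j, (R.filter fun v => vec f (g (kap f v)) + vec f v = w).card ≤
      if w = 0 then 0 else s - 1 := by
    intro w
    by_cases hw : w = 0
    · rw [if_pos hw, Nat.le_zero, card_eq_zero, filter_eq_empty_iff]
      intro v hv h
      obtain ⟨hvD, hvg⟩ := mem_filter.1 hv
      obtain ⟨h1, h2⟩ := hg _ (hmemS v hvD)
      have h3 : vec f (g (kap f v)) = vec f v := by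
        have : vec f (g (kap f v)) + vec f v + vec f v = 0 + vec f v := by rw [h, hw]
        rwa [add_assoc, add_self_V, add_zero, zero_add] at this
      refine hvg (hDi (mem_coe.2 h1) (mem_coe.2 hvD) ?_)
      have h4 : (kap f (g (kap f v))).1 = (kap f v).1 := congrArg Prod.fst h2
      have h5 : (kap f (g (kap f v))).2 = (kap f v).2 := congrArg Prod.snd h2
      exact Prod.ext h4 (Prod.ext h5 h3)
    · rw [if_neg hw]
      set Rw := R.filter fun v => vec f (g (kap f v)) + vec f v = w with hRw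
      have hinj : Set.InjOn (fun v => (g (kap f v), v)) Rw := fun v _ v' _ h => (Prod.mk.inj h).2
      have hc : (Rw.image fun v => (g (kap f v), v)).card = Rw.card := card_image_of_injOn hinj
      rw [← hc]
      have hD' : ∀ v ∈ Rw, v ∈ D ∧ g (kap f v) ≠ v ∧ vec f (g (kap f v)) + vec f v = w := by
        intro v hv
        obtain ⟨h1, h2⟩ := mem_filter.1 hv
        obtain ⟨h3, h4⟩ := mem_filter.1 h1
        exact ⟨h3, h4, h2⟩
      refine hblock _ w ⟨?_, ?_, ?_⟩ ?_ ?_
      · intro p hp q hq h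
        obtain ⟨v, hv, rfl⟩ := mem_image.1 hp
        obtain ⟨v', hv', rfl⟩ := mem_image.1 hq
        obtain ⟨h1, h2, h3⟩ := hD' v hv
        obtain ⟨h1', h2', h3'⟩ := hD' v' hv'
        simp only at h
        have hk : kap f v = kap f v' := by
          rw [← (hg _ (hmemS v h1)).2, ← (hg _ (hmemS v' h1')).2, h]
        have hvec : vec f v = vec f v' := by
          rw [← h3', h] at h3
          exact add_left_cancel h3
        have : v = v' := by
          refine hDi (mem_coe.2 h1) (mem_coe.2 h1') ?_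
          have h4 : (kap f v).1 = (kap f v').1 := congrArg Prod.fst hk
          have h5 : (kap f v).2 = (kap f v').2 := congrArg Prod.snd hk
          exact Prod.ext h4 (Prod.ext h5 hvec)
        rw [this]
      · intro p hp q hq h
        obtain ⟨v, hv, rfl⟩ := mem_image.1 hp
        obtain ⟨v', hv', rfl⟩ := mem_image.1 hq
        simp only at h
        rw [h]
      · intro p hp q hq h
        obtain ⟨v, hv, rfl⟩ := mem_image.1 hp
        obtain ⟨v', hv', rfl⟩ := mem_image.1 hq
        obtain ⟨h1, h2, h3⟩ := hD' v hv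
        obtain ⟨h1', h2', h3'⟩ := hD' v' hv'
        simp only at h
        have hk : kap f v' = kap f v := by
          rw [← (hg _ (hmemS v h1)).2, h]
        exact h2' (by rw [hk, h])
      · intro p hp
        obtain ⟨v, hv, rfl⟩ := mem_image.1 hp
        obtain ⟨h1, h2, h3⟩ := hD' v hv
        exact ⟨hD (hg _ (hmemS v h1)).1, hD h1⟩
      · intro p hp
        obtain ⟨v, hv, rfl⟩ := mem_image.1 hp
        obtain ⟨h1, h2, h3⟩ := hD' v hv
        exact ⟨(hg _ (hmemS v h1)).2, h3⟩
  have hRc : R.card ≤ (s - 1) * (2 ^ j - 1) := by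
    have h1 : R.card = ∑ w : V j, (R.filter fun v => vec f (g (kap f v)) + vec f v = w).card :=
      card_eq_sum_card_fiberwise fun _ _ => mem_coe.2 (mem_univ _)
    rw [h1]
    calc ∑ w : V j, (R.filter fun v => vec f (g (kap f v)) + vec f v = w).card
        ≤ ∑ w : V j, (if w = 0 then 0 else s - 1) := sum_le_sum fun w _ => hRw w
      _ = ∑ w ∈ (univ : Finset (V j)).erase 0, (s - 1) := by
          rw [← sum_erase_add _ _ (mem_univ (0 : V j)), if_pos rfl, add_zero]
          refine sum_congr rfl fun w hw => ?_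
          rw [if_neg (ne_of_mem_erase hw)]
      _ = (s - 1) * (2 ^ j - 1) := by
          rw [sum_const, card_erase_of_mem (mem_univ _), card_univ, smul_eq_mul, mul_comm]
          congr 2
          simp
  have h2j : 1 ≤ 2 ^ j := Nat.one_le_two_pow
  have hfin : Y.card ≤ a * m + (s - 1) * (2 ^ j - 1) + 2 * (s - 1) := by omega
  have hexp : (s - 1) * (2 ^ j + 1) = (s - 1) * (2 ^ j - 1) + 2 * (s - 1) := by
    have : 2 ^ j + 1 = (2 ^ j - 1) + 2 := by omega
    rw [this, mul_add]
    ring
  omega

end Pool.Agent.H69.ColE
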