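import Pool.Agent.H69.ColE.Limit
import Pool.Graph.R_pool_sql_team_seeded_3997aac3.Q235.TU2

/-!
Greedy covering systems as base systems; a bound for all even uniformities.
-/

set_option autoImplicit false
set_option linter.unusedSectionVars false

open Finset Filter Topology

namespace Pool.Agent.H69.ColE

/-- the bound from a system on `N` points -/
theorem base_bound {s : ℕ} (hs : 2 ≤ s) {L : ℝ}
    (hL : ∀ k : ℕ, 2 * s ≤ k → L ≤ ((k : ℝ) - 1) ^ (2 * s - 1) *
      Pool.Agent.H688R3.TuranGen.t (2 * s) k) {N a : ℕ} (hN : 0 < N) (ha : 2 * s ≤ a + 1)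
    (F : Finset (Finset (Fin N))) (hF1 : ∀ Z ∈ F, Z.card = 2 * s)
    (hF2 : ∀ Y : Finset (Fin N), Y.card = a + 1 → ∃ Z ∈ F, Z ⊆ Y) {y : ℝ} (hy : 0 < y) :
    L ≤ (1 + 1 / y) ^ (2 * s - 1) * ((a : ℝ) ^ (2 * s - 1) *
      (((2 * s).factorial : ℝ) * (F.card : ℝ)) / (N : ℝ) ^ (2 * s) +
      ((2 * s).factorial : ℝ) / (2 ^ s * (s.factorial : ℝ)) * ((a : ℝ) / N) ^ s *
        (((s : ℝ) - 1) * y) ^ (s - 1)) := by
  have : NeZero N := ⟨hN.ne'⟩
  have h := limit_bound hs (L := L) (a := a) (N := N) (b := (B (2 * s) F).card) (by omega) hN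
    (fun m j hm => by
      have := le_of_main (Λ := Fin N) (by omega) hL (Q := F) (a := a) hF2 hF1 ha m j hm
      rwa [Fintype.card_fin] at this) hy
  refine h.trans (mul_le_mul_of_nonneg_left (add_le_add_left ?_ _) (by positivity))
  have hB : ((B (2 * s) F).card : ℝ) ≤ ((2 * s).factorial : ℝ) * (F.card : ℝ) := by
    exact_mod_cast card_B_le hF1
  exact div_le_div_of_nonneg_right (mul_le_mul_of_nonneg_left hB (by positivity)) (by positivity)

/-- the bound from greedy systems -/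
theorem greedy_bound {s : ℕ} (hs : 2 ≤ s) {L : ℝ}
    (hL : ∀ k : ℕ, 2 * s ≤ k → L ≤ ((k : ℝ) - 1) ^ (2 * s - 1) *
      Pool.Agent.H688R3.TuranGen.t (2 * s) k) {l : ℕ} (hl : 2 ≤ l) {y : ℝ} (hy : 0 < y) :
    L ≤ ((2 * s).factorial : ℝ) * ((1 + 1 / y) ^ (2 * s - 1) * (1 + Real.log l +
      (((s : ℝ) - 1) * y) ^ (s - 1) / (2 ^ s * (s.factorial : ℝ) * (l : ℝ) ^ s))) := by
  have hl0 : (0 : ℝ) < l := by exact_mod_cast (show 0 < l by omega)
  have hf : (0 : ℝ) < (s.factorial : ℝ) := by exact_mod_cast s.factorial_pos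
  set C : ℝ := ((2 * s).factorial : ℝ) / (2 ^ s * (s.factorial : ℝ)) * (1 / (l : ℝ)) ^ s *
    (((s : ℝ) - 1) * y) ^ (s - 1) with hC
  have hlim : Tendsto (fun a : ℕ => (1 + 1 / y) ^ (2 * s - 1) * (((2 * s).factorial : ℝ) *
      Pool.Agent.Q235.TU.G 1 l 1 (2 * s) (2 * s) (1 / (a : ℝ)) + C)) atTop
      (𝓝 ((1 + 1 / y) ^ (2 * s - 1) * (((2 * s).factorial : ℝ) *
        ((1 : ℝ) ^ (2 * s - 1) / ((l : ℝ) * 1) ^ (2 * s) * (((l : ℝ) * 1 / 1) ^ (2 * s) *
          (1 * Real.log (Real.exp 1 * ((l : ℝ) * 1) / 1)))) + C))) :=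
    (((Pool.Agent.Q235.TU.G_tendsto one_pos hl0 one_pos (2 * s) (2 * s)).const_mul _).add_const
      _).const_mul _
  have hle : ∀ᶠ a : ℕ in atTop, L ≤ (1 + 1 / y) ^ (2 * s - 1) * (((2 * s).factorial : ℝ) *
      Pool.Agent.Q235.TU.G 1 l 1 (2 * s) (2 * s) (1 / (a : ℝ)) + C) := by
    filter_upwards [eventually_gt_atTop (2 * s)] with a ha
    obtain ⟨R, hR1, hR2, hR3⟩ := Pool.Agent.Q235.TU.cost (A := 1) (L := l) (b0 := 1) (r := 2 * s)
      (h := 2 * s) (a := a) le_rfl hl le_rfl le_rfl le_rfl (by omega) ha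
    have hNe : l * 1 * a = l * a := by ring
    have ha0 : (0 : ℝ) < a := by exact_mod_cast (show 0 < a by omega)
    have hN : 0 < l * 1 * a := by
      rw [hNe]
      exact Nat.mul_pos (by omega) (by omega)
    have h := base_bound hs hL (N := l * 1 * a) (a := a) hN (by omega) R hR1
      (fun Y hY => hR2 Y (by omega)) hy
    refine h.trans (mul_le_mul_of_nonneg_left (add_le_add ?_ (le_of_eq ?_)) (by positivity))
    · have hd : (((l * 1 * a).descFactorial (2 * s) : ℕ) : ℝ) ≤ ((l * 1 * a : ℕ) : ℝ) ^ (2 * s) := by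
        exact_mod_cast Nat.descFactorial_le_pow (l * 1 * a) (2 * s)
      have hd0 : (0 : ℝ) < (((l * 1 * a).descFactorial (2 * s) : ℕ) : ℝ) := by
        have hle2 : 2 * s ≤ l * 1 * a := by
          rw [hNe]
          have : 1 * a ≤ l * a := Nat.mul_le_mul_right _ (by omega)
          omega
        have : 0 < (l * 1 * a).descFactorial (2 * s) := Nat.pos_of_ne_zero (by
          rw [Ne, Nat.descFactorial_eq_zero_iff_lt]
          omega)
        exact_mod_cast this
      have h1 : (a : ℝ) ^ (2 * s - 1) * (((2 * s).factorial : ℝ) * (R.card : ℝ)) /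
          ((l * 1 * a : ℕ) : ℝ) ^ (2 * s) ≤ (a : ℝ) ^ (2 * s - 1) *
            (((2 * s).factorial : ℝ) * (R.card : ℝ)) /
              (((l * 1 * a).descFactorial (2 * s) : ℕ) : ℝ) :=
        div_le_div_of_nonneg_left (by positivity) hd0 hd
      refine h1.trans ?_
      have h2 : (a : ℝ) ^ (2 * s - 1) * (((2 * s).factorial : ℝ) * (R.card : ℝ)) /
              (((l * 1 * a).descFactorial (2 * s) : ℕ) : ℝ) = ((2 * s).factorial : ℝ) *
          ((((1 : ℕ) : ℝ) * (a : ℝ)) ^ (2 * s - 1) / (((l * 1 * a).descFactorial (2 * s) : ℕ) : ℝ) *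
            (R.card : ℝ)) := by
        push_cast
        rw [one_mul]
        ring
      rw [h2]
      refine mul_le_mul_of_nonneg_left ?_ (by positivity)
      have h3 := hR3
      push_cast at h3 ⊢
      exact h3
    · rw [hC]
      congr 2
      congr 1
      push_cast
      field_simp
  have hfin := ge_of_tendsto hlim hle
  refine hfin.trans (le_of_eq ?_)
  have e1 : Real.log (Real.exp 1 * ((l : ℝ) * 1) / 1) = 1 + Real.log l := by
    rw [mul_one, div_one, Real.log_mul (Real.exp_pos 1).ne' hl0.ne', Real.log_exp]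
  rw [e1, hC, one_pow, mul_one, div_one, one_mul, one_div_pow]
  have e2 : 1 / (l : ℝ) ^ (2 * s) * ((l : ℝ) ^ (2 * s) * (1 + Real.log l)) = 1 + Real.log l := by
    field_simp
  rw [e2]
  set P := (1 + 1 / y) ^ (2 * s - 1)
  set Z := (((s : ℝ) - 1) * y) ^ (s - 1)
  field_simp

end Pool.Agent.H69.ColE
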