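import Pool.Agent.H69.ColE.Count
import Pool.Agent.H69.Col4.Limit

/-!
The limit for many components and many colours, `2 s`-sets.
-/

set_option autoImplicit false
set_option linter.unusedSectionVars false

open Finset Filter Topology

namespace Pool.Agent.H69.ColE

/-- the bound for given numbers of components and colours -/
theorem le_of_main {s : ℕ} (hs : 1 ≤ s) {L : ℝ}
    (hL : ∀ k : ℕ, 2 * s ≤ k → L ≤ ((k : ℝ) - 1) ^ (2 * s - 1) *
      Pool.Agent.H688R3.TuranGen.t (2 * s) k) {Λ : Type} [Fintype Λ] [DecidableEq Λ]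
    [AddCommGroup Λ] {Q : Finset (Finset Λ)} {a : ℕ}
    (hcov : ∀ X : Finset Λ, X.card = a + 1 → ∃ e ∈ Q, e ⊆ X)
    (hQ : ∀ e ∈ Q, e.card = 2 * s) (ha : 2 * s ≤ a + 1) (m j : ℕ) (hm : 0 < m) :
    L ≤ ((a : ℝ) * m + ((s : ℝ) - 1) * (2 ^ j + 1)) ^ (2 * s - 1) *
      dens s (Fintype.card Λ) (B (2 * s) Q).card m j := by
  have : NeZero m := ⟨hm.ne'⟩
  have hmul : a ≤ a * m := by
    calc a = a * 1 := (mul_one _).symm
      _ ≤ a * m := Nat.mul_le_mul_left _ hm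
  obtain ⟨σ, hσ⟩ : ∃ σ, 2 * s + σ = a * m + (s - 1) * (2 ^ j + 1) + 1 :=
    ⟨a * m + (s - 1) * (2 ^ j + 1) + 1 - 2 * s, by omega⟩
  have htd := main hs hcov hQ m j σ hσ
  have h1 := hL (2 * s + σ) (by omega)
  have h3 := Pool.Agent.X44.TS.t_le_of_td htd
  refine h1.trans ?_
  have e : (((2 * s + σ : ℕ) : ℝ) - 1) = (a : ℝ) * m + ((s : ℝ) - 1) * (2 ^ j + 1) := by
    have hs' : ((s - 1 : ℕ) : ℝ) = (s : ℝ) - 1 := by
      rw [Nat.cast_sub hs]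
      norm_num
    rw [hσ]
    push_cast
    rw [hs']
    ring
  rw [e]
  refine mul_le_mul_of_nonneg_left h3 (pow_nonneg ?_ _)
  have : (1 : ℝ) ≤ s := by exact_mod_cast hs
  have h0 : (0 : ℝ) ≤ (s : ℝ) - 1 := by linarith
  positivity

/-- the bound in the limit -/
theorem limit_bound {s : ℕ} (hs : 2 ≤ s) {L : ℝ} {a N b : ℕ} (ha : 0 < a) (hN : 0 < N)
    (h : ∀ m j : ℕ, 0 < m → L ≤ ((a : ℝ) * m + ((s : ℝ) - 1) * (2 ^ j + 1)) ^ (2 * s - 1) *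
      dens s N b m j) {y : ℝ} (hy : 0 < y) :
    L ≤ (1 + 1 / y) ^ (2 * s - 1) * ((a : ℝ) ^ (2 * s - 1) * b / (N : ℝ) ^ (2 * s) +
      ((2 * s).factorial : ℝ) / (2 ^ s * (s.factorial : ℝ)) * ((a : ℝ) / N) ^ s *
        (((s : ℝ) - 1) * y) ^ (s - 1)) := by
  have ha' : (0 : ℝ) < a := by exact_mod_cast ha
  have hN' : (0 : ℝ) < N := by exact_mod_cast hN
  have hs0 : (0 : ℝ) < (s : ℝ) - 1 := by
    have : (2 : ℝ) ≤ s := by exact_mod_cast hs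
    linarith
  have hf : (0 : ℝ) < (s.factorial : ℝ) := by exact_mod_cast s.factorial_pos
  set z : ℝ := (s : ℝ) - 1 with hz
  set μ : ℝ := z * y / a with hμ
  have hμ0 : 0 < μ := by positivity
  set κ : ℝ := ((2 * s).factorial : ℝ) / (2 ^ s * (s.factorial : ℝ)) with hκ
  have hpow : Tendsto (fun j : ℕ => (2 : ℝ) ^ j) atTop atTop :=
    tendsto_pow_atTop_atTop_of_one_lt (by norm_num)
  set M : ℕ → ℕ := fun j => ⌈μ * 2 ^ j⌉₊ with hM
  have hMpos : ∀ j, 0 < M j := fun j => Nat.ceil_pos.2 (by positivity)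
  have hx : Tendsto (fun j : ℕ => (M j : ℝ) / 2 ^ j) atTop (𝓝 μ) :=
    (tendsto_nat_ceil_mul_div_atTop hμ0.le).comp hpow
  have hxi : Tendsto (fun j : ℕ => (2 : ℝ) ^ j / (M j : ℝ)) atTop (𝓝 μ⁻¹) := by
    refine (hx.inv₀ hμ0.ne').congr fun j => ?_
    rw [inv_div]
  have hMi : Tendsto (fun j : ℕ => 1 / (M j : ℝ)) atTop (𝓝 0) := by
    have h1 : Tendsto (fun j : ℕ => ((2 : ℝ) ^ j / (M j : ℝ)) * ((2 : ℝ) ^ j)⁻¹) atTop
        (𝓝 (μ⁻¹ * 0)) := hxi.mul (tendsto_inv_atTop_zero.comp hpow)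
    rw [mul_zero] at h1
    refine h1.congr fun j => ?_
    have : (2 : ℝ) ^ j ≠ 0 := by positivity
    field_simp
  have hlim : Tendsto (fun j : ℕ => ((a : ℝ) + z * (2 ^ j / (M j : ℝ) + 1 / (M j : ℝ))) ^
      (2 * s - 1) * ((b : ℝ) / (N : ℝ) ^ (2 * s) + κ * ((M j : ℝ) / 2 ^ j) ^ (s - 1) /
        (N : ℝ) ^ s)) atTop
      (𝓝 (((a : ℝ) + z * (μ⁻¹ + 0)) ^ (2 * s - 1) * ((b : ℝ) / (N : ℝ) ^ (2 * s) +
        κ * μ ^ (s - 1) / (N : ℝ) ^ s))) :=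
    ((((hxi.add hMi).const_mul z).const_add _).pow _).mul
      ((((hx.pow _).const_mul κ).div_const _).const_add _)
  have hle : ∀ j, L ≤ ((a : ℝ) + z * (2 ^ j / (M j : ℝ) + 1 / (M j : ℝ))) ^
      (2 * s - 1) * ((b : ℝ) / (N : ℝ) ^ (2 * s) + κ * ((M j : ℝ) / 2 ^ j) ^ (s - 1) /
        (N : ℝ) ^ s) := by
    intro j
    have h1 := h (M j) j (hMpos j)
    have hMp : (0 : ℝ) < (M j : ℝ) := by exact_mod_cast hMpos j
    have h2 : (0 : ℝ) < (2 : ℝ) ^ j := by positivity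
    refine h1.trans (le_of_eq ?_)
    have e1 : ((a : ℝ) * (M j : ℝ) + z * (2 ^ j + 1)) =
        (M j : ℝ) * ((a : ℝ) + z * (2 ^ j / (M j : ℝ) + 1 / (M j : ℝ))) := by
      field_simp
    rw [e1, mul_pow, mul_comm ((M j : ℝ) ^ (2 * s - 1)), mul_assoc]
    congr 1
    unfold dens
    rw [← hκ, mul_add]
    congr 1
    · field_simp
    · have e2 : (M j : ℝ) ^ (2 * s - 1) = (M j : ℝ) ^ s * (M j : ℝ) ^ (s - 1) := by
        rw [← pow_add]
        congr 1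
        omega
      rw [e2, mul_pow, div_pow]
      field_simp
  have hfin := ge_of_tendsto' hlim hle
  refine hfin.trans (le_of_eq ?_)
  have e1 : (a : ℝ) + z * (μ⁻¹ + 0) = a * (1 + 1 / y) := by
    rw [hμ, add_zero]
    field_simp
  rw [e1, mul_pow, mul_comm ((a : ℝ) ^ (2 * s - 1)), mul_assoc]
  congr 1
  rw [mul_add]
  congr 1
  · ring
  · have e2 : (a : ℝ) ^ (2 * s - 1) = (a : ℝ) ^ s * (a : ℝ) ^ (s - 1) := by
      rw [← pow_add]
      congr 1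
      omega
    rw [hμ, e2, div_pow, div_pow]
    field_simp

end Pool.Agent.H69.ColE
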